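import Mathlib
import Pool.Agent.H6Fuse

set_option autoImplicit false

open MeasureTheory Set Filter Topology
open scoped ENNReal NNReal

namespace Pool.Agent.Results.MP_d9d12d_lc.BorelImages

open Pool.Agent.H6Thin

/-- Hausdorff dimension on Cantor space for the metric `d(x,y) = 2^(-n)`, where `n` is the first
index at which `x` and `y` differ (this is `PiNat.metricSpace`). -/
noncomputable def dim (E : Set (ℕ → Bool)) : ℝ≥0∞ :=
  @dimH (ℕ → Bool) PiNat.metricSpace.toEMetricSpace E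

section
attribute [local instance] PiNat.metricSpace

lemma half_pow (n : ℕ) : (1 / 2 : ℝ) ^ n = pw (-1 * n) := by
  rw [pw_mul, pw, Real.rpow_neg_one, one_div]

lemma ofReal_pw (a t : ℝ) (ht : 0 ≤ t) :
    ENNReal.ofReal (pw a) ^ t = ENNReal.ofReal (pw (a * t)) := by
  rw [ENNReal.ofReal_rpow_of_nonneg (pw_pos a).le ht, pw, pw, ← Real.rpow_mul (by norm_num)]

lemma diam_cy (n : ℕ) (x : C) : Metric.ediam (cy n x) ≤ ENNReal.ofReal (pw (-1 * n)) := by
  refine Metric.ediam_le (fun y hy z hz => ?_)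
  rw [edist_dist, ← half_pow]
  refine ENNReal.ofReal_le_ofReal (PiNat.mem_cylinder_iff_dist_le.1 ?_)
  exact fun i hi => (hy i hi).trans (hz i hi).symm

lemma pw_tendsto {t : ℝ} (ht : 0 < t) :
    Tendsto (fun n : ℕ => ENNReal.ofReal (pw (-t * n))) atTop (𝓝 0) := by
  simp only [pw_mul]
  rw [← ENNReal.ofReal_zero]
  exact ENNReal.tendsto_ofReal (tendsto_pow_atTop_nhds_zero_of_lt_one (pw_pos _).le
    (pw_lt_one (by linarith)))

lemma small_dim {s : ℝ} (hs : 0 ≤ s) {Z : Set C} (h : Small s Z) : dimH Z ≤ ENNReal.ofReal s := by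
  refine le_of_forall_gt_imp_ge_of_dense (fun c hc => ?_)
  obtain ⟨t, h1, h2⟩ := ENNReal.lt_iff_exists_nnreal_btwn.1 hc
  refine le_trans (dimH_le_of_hausdorffMeasure_ne_top (d := t) ?_) h2.le
  have h3 : s < t := by
    rw [ENNReal.ofReal_lt_iff_lt_toReal hs ENNReal.coe_ne_top] at h1
    simpa using h1
  obtain ⟨k, hk⟩ := er_small (sub_pos.2 h3)
  choose l hl S h4 h5 using h
  have h6 := Measure.hausdorffMeasure_le_liminf_sum (ι := fun i => S i) (t : ℝ) Z
    (l := atTop) (fun i => ENNReal.ofReal (pw (-1 * l i)))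
    ((pw_tendsto one_pos).comp (tendsto_atTop_mono hl tendsto_id))
    (fun i y => cy (l i) y) (Eventually.of_forall (fun i y => diam_cy _ _))
    (Eventually.of_forall (fun i z hz => by
      obtain ⟨y, hy, hz⟩ := h5 i z hz
      exact mem_iUnion.2 ⟨⟨y, hy⟩, hz⟩))
  refine ne_top_of_le_ne_top ENNReal.one_ne_top (h6.trans ?_)
  refine liminf_le_of_frequently_le' (Eventually.frequently ?_)
  filter_upwards [eventually_ge_atTop k] with i hi
  calc _ ≤ ∑ _y : S i, ENNReal.ofReal (pw (-1 * l i * t)) :=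
        Finset.sum_le_sum (fun y _ => by
          rw [← ofReal_pw _ _ (NNReal.coe_nonneg t)]
          exact ENNReal.rpow_le_rpow (diam_cy _ _) (NNReal.coe_nonneg t))
    _ = ENNReal.ofReal ((S i).card * pw (-1 * l i * t)) := by
        rw [ENNReal.ofReal_mul (Nat.cast_nonneg _)]; simp
    _ ≤ 1 := by
        rw [← ENNReal.ofReal_one]
        refine ENNReal.ofReal_le_ofReal
          ((mul_le_mul_of_nonneg_right (h4 i) (pw_pos _).le).trans ?_)
        rw [← pw_add]
        refine le_trans (pw_le ?_) pw_zero.le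
        nlinarith [er_anti hi, (Nat.cast_nonneg (l i) : (0 : ℝ) ≤ l i)]

lemma good_null {s t : ℝ} (ht : 0 < t) (hts : t < s) (p : Cond s) {N : Set C}
    (hN : μH[t] N = 0) : p.μ N = 0 := by
  classical
  haveI := p.prob
  obtain ⟨n, hn⟩ := p.good.1 (s - t) (by linarith)
  have hb : ∀ r ≥ n, ∀ x, p.μ (cy r x) ≤ ENNReal.ofReal (pw (-t * r)) := by
    intro r hr x
    rw [← ofReal_measureReal]
    refine ENNReal.ofReal_le_ofReal ?_
    simpa using hn r hr x
  have hle : p.μ ≤ μH[t] := by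
    refine Measure.le_hausdorffMeasure t p.μ (ENNReal.ofReal (pw (-1 * n)))
      (ENNReal.ofReal_pos.2 (pw_pos _)) (fun A hA => ?_)
    rcases A.eq_empty_or_nonempty with rfl | ⟨x, hx⟩
    · simp
    by_cases h : ∃ r, ¬ A ⊆ cy (r + 1) x
    · have h1 : A ⊆ cy (Nat.find h) x := by
        rcases h0 : Nat.find h with _ | r
        · intro y _ i hi; omega
        · exact not_not.1 (Nat.find_min h (by omega))
      obtain ⟨y, hy, hyx⟩ := not_subset.1 (Nat.find_spec h)
      have h2 : ENNReal.ofReal (pw (-1 * (Nat.find h : ℕ))) ≤ Metric.ediam A := by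
        refine le_trans ?_ (Metric.edist_le_ediam_of_mem hy hx)
        rw [edist_dist, ← half_pow]
        refine ENNReal.ofReal_le_ofReal (not_lt.1 (fun hlt => hyx (fun i hi => ?_)))
        exact PiNat.apply_eq_of_dist_lt hlt (Nat.lt_succ_iff.1 hi)
      have h3 : n ≤ Nat.find h := by
        have h4 := (ENNReal.ofReal_le_ofReal_iff (pw_pos _).le).1 (h2.trans hA)
        rw [pw, pw, Real.rpow_le_rpow_left_iff (by norm_num)] at h4
        have : (n : ℝ) ≤ (Nat.find h : ℕ) := by linarith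
        exact_mod_cast this
      refine ((measure_mono h1).trans (hb _ h3 x)).trans
        (le_trans (le_of_eq ?_) (ENNReal.rpow_le_rpow h2 ht.le))
      rw [ofReal_pw _ _ ht.le]; congr 2; ring
    · push Not at h
      refine le_trans (ge_of_tendsto (pw_tendsto ht) ?_) (by simp)
      filter_upwards [eventually_ge_atTop n] with r hr
      exact (measure_mono ((h r).trans (cy_anti (Nat.le_succ r) x))).trans (hb r hr x)
  exact le_antisymm ((hle N).trans hN.le) (by simp)

/-- Transfinite recursion with a unary and a binary invariant. -/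
lemma recur {T X : Type} [LinearOrder T] [WellFoundedLT T] [Nonempty X] (P : T → X → Prop)
    (R : X → X → Prop)
    (H : ∀ (b : T) (g : T → X), (∀ a < b, P a (g a)) → (∀ a a', a < a' → a' < b → R (g a) (g a')) →
      ∃ x, P b x ∧ ∀ a < b, R (g a) x) :
    ∃ g : T → X, (∀ a, P a (g a)) ∧ ∀ a b, a < b → R (g a) (g b) := by
  classical
  choose! F hF using H
  let G : ∀ b : T, (∀ a, a < b → X) → X :=
    fun b g => F b (fun a => if h : a < b then g a h else Classical.arbitrary X)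
  let g : T → X := WellFoundedLT.fix G
  have hg : ∀ b, g b = F b (fun a => if a < b then g a else Classical.arbitrary X) := by
    intro b
    refine (WellFoundedLT.fix_eq G b).trans ?_
    simp only [G]
    congr 1
  have key : ∀ b, P b (g b) ∧ ∀ a < b, R (g a) (g b) := by
    intro b
    induction b using WellFoundedLT.induction with
    | ind b ih =>
      obtain ⟨h1, h2⟩ := hF b (fun a => if a < b then g a else Classical.arbitrary X)
        (fun a ha => by simpa [ha] using (ih a ha).1)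
        (fun a a' h h' => by simpa [h', h.trans h'] using (ih a' h').2 a h)
      rw [← hg] at h1 h2
      exact ⟨h1, fun a ha => by simpa [ha] using h2 a ha⟩
  exact ⟨g, fun a => (key a).1, fun a b h => (key b).2 a h⟩

/-- The fair coin. -/
noncomputable def coin : Measure Bool :=
  ProbabilityTheory.bernoulliMeasure true false ⟨1 / 2, by norm_num, by norm_num⟩

instance : IsProbabilityMeasure coin := by unfold coin; infer_instance

lemma coin_eq (b : Bool) : coin.real {b} = 1 / 2 := by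
  cases b
  · rw [coin, ProbabilityTheory.bernoulliMeasure_real_apply_of_notMem_of_mem _
      (MeasurableSet.singleton _) (by simp) (by simp)]; norm_num
  · rw [coin, ProbabilityTheory.bernoulliMeasure_real_apply_of_mem_of_notMem _
      (MeasurableSet.singleton _) (by simp) (by simp)]

lemma cond_ne {s : ℝ} (hs1 : s ≤ 1) : Nonempty (Cond s) := by
  have h : ∀ r, Fr (Measure.infinitePi (fun _ : ℕ => coin)) 1 r := by
    intro r x
    rw [cy_eq, Measure.real, Measure.infinitePi_pi _ (fun _ _ => MeasurableSet.singleton _),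
      ENNReal.toReal_prod, ← half_pow]
    have : ∀ i ∈ Finset.range r, (coin {x i}).toReal = 1 / 2 := fun i _ => coin_eq _
    rw [Finset.prod_congr rfl this]
    simp
  exact ⟨⟨Measure.infinitePi (fun _ : ℕ => coin), univ, inferInstance, isClosed_univ, by simp,
    fun ε hε => ⟨0, fun r _ => (h r).mono (by linarith)⟩,
    fun ε hε _ n0 => ⟨n0, le_rfl, fun r _ _ => (h r).mono (by linarith)⟩⟩⟩

lemma tower {s : ℝ} (hs0 : 0 ≤ s) (hs1 : s ≤ 1) {T : Type} [LinearOrder T] [WellFoundedLT T]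
    (hc : ∀ a : T, (Iio a).Countable) (f : T → C → C) (hf : ∀ a, Measurable (f a)) :
    ∃ g : T → Set (Cond s), (∀ a, (g a).Countable ∧ (g a).Nonempty ∧
      ∀ p ∈ g a, Small s (f a '' p.K)) ∧
      ∀ a b, a < b → Ex (g a) (g b) ∧ ∀ q ∈ g b, ∃ p ∈ g a, q.K ⊆ p.K := by
  refine recur (fun a X => X.Countable ∧ X.Nonempty ∧ ∀ p ∈ X, Small s (f a '' p.K))
    (fun X Y => Ex X Y ∧ ∀ q ∈ Y, ∃ p ∈ X, q.K ⊆ p.K) (fun b g h1 h2 => ?_)
  haveI := cond_ne hs1
  rcases (Iio b).eq_empty_or_nonempty with h0 | h0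
  · obtain ⟨p⟩ := cond_ne hs1
    obtain ⟨n, hn⟩ := p.good.1 (er 0) (er_pos 0)
    obtain ⟨q, _, hq⟩ := shrink hs0 hs1 (hf b) p n 0 hn
    refine ⟨{q}, ⟨countable_singleton q, singleton_nonempty q, by simpa using hq⟩, fun a ha => ?_⟩
    have : a ∈ Iio b := ha
    rw [h0] at this
    exact this.elim
  obtain ⟨e, he⟩ := (hc b).exists_eq_range h0
  have step : ∀ (a : T) (p : Cond s) (n k : ℕ), a < b ∧ p ∈ g a ∧ B p n k →
      ∃ q, Le n k p q ∧ Small s (f b '' q.K) ∧ ∀ a' < b, ∃ p' ∈ g a', q.K ⊆ p'.K := by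
    rintro a p n k ⟨ha, hp, hB⟩
    let c : ℕ → T := fun i => Nat.rec a (fun i w => max w (e i)) i
    have hcb : ∀ i, c i < b := by
      intro i
      induction i with
      | zero => exact ha
      | succ j ih =>
        have : e j ∈ Iio b := he ▸ mem_range_self j
        exact max_lt ih this
    obtain ⟨q0, h3, h4⟩ := fusion (fun i => g (c i)) (fun i => by
      rcases (le_max_left (c i) (e i)).eq_or_lt with h | h
      · have : c (i + 1) = c i := h.symm
        simp only [this]; exact Ex.refl _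
      · exact (h2 _ _ h (hcb (i + 1))).1) p hp n k hB
    obtain ⟨q, h5, h6⟩ := shrink hs0 hs1 (hf b) q0 n k h3.2.2
    refine ⟨q, h3.trans h5, h6, fun a' ha' => ?_⟩
    have : a' ∈ range e := he ▸ ha'
    obtain ⟨i, rfl⟩ := this
    obtain ⟨p1, h7, h8⟩ := h4 (i + 1)
    rcases (le_max_right (c i) (e i)).eq_or_lt with h | h
    · have : c (i + 1) = e i := h.symm
      simp only [this] at h7
      exact ⟨p1, h7, h5.1.trans h8⟩
    · obtain ⟨p2, h9, h10⟩ := (h2 _ _ h (hcb (i + 1))).2 p1 h7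
      exact ⟨p2, h9, (h5.1.trans h8).trans h10⟩
  choose! Q hQ using step
  let Y : Set (Cond s) := ⋃ a ∈ Iio b, ⋃ p ∈ g a, ⋃ n, ⋃ k, {q | B p n k ∧ q = Q a p n k}
  have hY : ∀ q, q ∈ Y ↔ ∃ a p n k, (a < b ∧ p ∈ g a ∧ B p n k) ∧ q = Q a p n k := by
    intro q
    simp only [Y, mem_iUnion, mem_setOf_eq, mem_Iio]
    exact ⟨fun ⟨a, ha, p, hp, n, k, h, e⟩ => ⟨a, p, n, k, ⟨ha, hp, h⟩, e⟩,
      fun ⟨a, p, n, k, ⟨ha, hp, h⟩, e⟩ => ⟨a, ha, p, hp, n, k, h, e⟩⟩
  refine ⟨Y, ⟨?_, ?_, fun q hq => ?_⟩, fun a ha => ⟨fun p hp n k hB => ?_, fun q hq => ?_⟩⟩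
  · exact (hc b).biUnion (fun a ha => (h1 a ha).1.biUnion (fun p _ => countable_iUnion (fun n =>
      countable_iUnion (fun k => (countable_singleton _).mono (fun q hq => hq.2)))))
  · obtain ⟨a, ha⟩ := h0
    obtain ⟨p, hp⟩ := (h1 a ha).2.1
    obtain ⟨n, hn⟩ := p.good.1 (er 0) (er_pos 0)
    exact ⟨_, (hY _).2 ⟨a, p, n, 0, ⟨ha, hp, hn⟩, rfl⟩⟩
  · obtain ⟨a, p, n, k, h, rfl⟩ := (hY q).1 hq
    exact (hQ a p n k h).2.1
  · exact ⟨_, (hY _).2 ⟨a, p, n, k, ⟨ha, hp, hB⟩, rfl⟩, (hQ a p n k ⟨ha, hp, hB⟩).1⟩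
  · obtain ⟨a', p, n, k, h, rfl⟩ := (hY q).1 hq
    exact (hQ a' p n k h).2.2 a ha

lemma core {s : ℝ} (hs0 : 0 ≤ s) (hs1 : s ≤ 1) {T : Type} [LinearOrder T] [WellFoundedLT T]
    (hc : ∀ a : T, (Iio a).Countable) (f : T → C → C) (hf : ∀ a, Measurable (f a))
    (N : T → Set C) (hN : ∀ A, MeasurableSet A → ∃ a, N a = A) :
    ∃ E : Set C, ENNReal.ofReal s ≤ dimH E ∧ ∀ a, dimH (f a '' E) ≤ ENNReal.ofReal s := by
  obtain ⟨g, h1, h2⟩ := tower hs0 hs1 hc f hf
  have h3 : ∀ a, ∃ x, (∃ p ∈ g a, x ∈ p.K) ∧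
      ∀ t : ℝ, 0 < t → t < s → μH[t] (N a) = 0 → x ∉ N a := by
    intro a
    obtain ⟨p, hp⟩ := (h1 a).2.1
    haveI := p.prob
    have h4 : ∀ A, p.μ A = 0 → ∃ x ∈ p.K, x ∉ A := by
      intro A hA
      by_contra hcon
      push Not at hcon
      have h5 : p.μ univ = 0 := measure_mono_null
        (fun x _ => (em (x ∈ p.K)).elim (fun h => Or.inl (hcon x h)) Or.inr)
        (measure_union_null hA p.null)
      simp at h5
    by_cases h : ∃ t : ℝ, 0 < t ∧ t < s ∧ μH[t] (N a) = 0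
    · obtain ⟨t, h5, h6, h7⟩ := h
      obtain ⟨x, hx, hx'⟩ := h4 _ (good_null h5 h6 p h7)
      exact ⟨x, ⟨p, hp, hx⟩, fun _ _ _ _ => hx'⟩
    · obtain ⟨x, hx, _⟩ := h4 ∅ measure_empty
      exact ⟨x, ⟨p, hp, hx⟩, fun t h5 h6 h7 => (h ⟨t, h5, h6, h7⟩).elim⟩
  choose x hx1 hx2 using h3
  refine ⟨range x, not_lt.1 (fun hlt => ?_), fun a => ?_⟩
  · obtain ⟨t, h4, h5⟩ := ENNReal.lt_iff_exists_nnreal_btwn.1 hlt
    have h6 : (0 : ℝ) < t := by
      have : (0 : ℝ≥0∞) < t := lt_of_le_of_lt (by simp) h4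
      exact_mod_cast this
    have h7 : (t : ℝ) < s := by
      rw [ENNReal.lt_ofReal_iff_toReal_lt ENNReal.coe_ne_top] at h5
      simpa using h5
    obtain ⟨a, ha⟩ := hN (toMeasurable μH[t] (range x)) (measurableSet_toMeasurable _ _)
    refine hx2 a t h6 h7 ?_ ?_
    · rw [ha, measure_toMeasurable]; exact hausdorffMeasure_of_dimH_lt h4
    · rw [ha]; exact subset_toMeasurable _ _ (mem_range_self a)
  · have h4 : f a '' range x ⊆ f a '' (x '' Iic a) ∪ ⋃ p ∈ g a, f a '' p.K := by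
      rintro _ ⟨_, ⟨b, rfl⟩, rfl⟩
      rcases le_or_gt b a with h | h
      · exact Or.inl ⟨_, ⟨b, h, rfl⟩, rfl⟩
      · obtain ⟨q, hq, hxq⟩ := hx1 b
        obtain ⟨p, hp, hqp⟩ := (h2 a b h).2 q hq
        exact Or.inr (mem_iUnion₂.2 ⟨p, hp, _, hqp hxq, rfl⟩)
    have h5 : (Iic a).Countable := by
      rw [← Iio_insert]; exact (hc a).insert a
    refine (dimH_mono h4).trans ?_
    rw [dimH_union, dimH_countable ((h5.image x).image _), dimH_bUnion (h1 a).1]
    exact max_le (by simp) (iSup₂_le (fun p hp => small_dim hs0 ((h1 a).2.2 p hp)))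

lemma core2 {s : ℝ} (hs0 : 0 ≤ s) (hs1 : s ≤ 1) (T : Type)
    (hT : Cardinal.mk T ≤ Cardinal.aleph 1) (f : T → C → C) (hf : ∀ a, Measurable (f a))
    (N : T → Set C) (hN : ∀ A, MeasurableSet A → ∃ a, N a = A) :
    ∃ E : Set C, ENNReal.ofReal s ≤ dimH E ∧ ∀ a, dimH (f a '' E) ≤ ENNReal.ofReal s := by
  obtain ⟨_, _, ho⟩ := Cardinal.exists_ord_eq_type_lt T
  refine core hs0 hs1 (fun a => ?_) f hf N hN
  have := (Cardinal.mk_Iio_lt a ho).trans_le hT
  rw [← Cardinal.succ_aleph0, Order.lt_succ_iff] at this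
  exact Cardinal.le_aleph0_iff_set_countable.1 this

lemma main (CH : Cardinal.continuum.{0} = Cardinal.aleph 1) {s : ℝ} (hs0 : 0 ≤ s) (hs1 : s ≤ 1) :
    ∃ E : Set C, dimH E = ENNReal.ofReal s ∧
      ∀ f : C → C, Measurable f → dimH (f '' E) ≤ ENNReal.ofReal s := by
  have h1 : Cardinal.mk {A : Set C // MeasurableSet A} ≤ Cardinal.continuum := by
    have h1 := MeasurableSpace.cardinal_measurableSet_le_continuum
      (s := MeasurableSpace.countableGeneratingSet C)
      ((Cardinal.le_aleph0_iff_set_countable.2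
        MeasurableSpace.countable_countableGeneratingSet).trans Cardinal.aleph0_le_continuum)
    rw [MeasurableSpace.generateFrom_countableGeneratingSet] at h1
    exact h1
  have h2 : Cardinal.mk {f : C → C // Measurable f} ≤ Cardinal.continuum := by
    let F : {f : C → C // Measurable f} → ℕ → {A : Set C // MeasurableSet A} :=
      fun f n => ⟨(fun x => f.1 x n) ⁻¹' {true},
        ((measurable_pi_apply n).comp f.2) (MeasurableSet.singleton _)⟩
    have hF : Function.Injective F := by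
      intro f g h
      refine Subtype.ext (funext fun x => funext fun n => ?_)
      have := Set.ext_iff.1 (congrArg Subtype.val (congrFun h n)) x
      simpa [F] using this
    refine (Cardinal.mk_le_of_injective hF).trans ?_
    rw [Cardinal.mk_arrow]
    simp only [Cardinal.lift_id, Cardinal.mk_nat]
    rw [← Cardinal.continuum_power_aleph0]
    exact Cardinal.power_le_power_right h1
  obtain ⟨E, h3, h4⟩ := core2 hs0 hs1
    ({f : C → C // Measurable f} × {A : Set C // MeasurableSet A}) (by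
      rw [← CH, Cardinal.mk_prod, Cardinal.lift_id, Cardinal.lift_id,
        ← Cardinal.continuum_mul_self]
      exact mul_le_mul' h2 h1) (fun a => a.1.1) (fun a => a.1.2) (fun a => a.2.1)
    (fun A hA => ⟨(⟨id, measurable_id⟩, ⟨A, hA⟩), rfl⟩)
  have h5 : ∀ f : C → C, Measurable f → dimH (f '' E) ≤ ENNReal.ofReal s :=
    fun f hf => h4 (⟨f, hf⟩, ⟨∅, MeasurableSet.empty⟩)
  exact ⟨E, le_antisymm (by simpa using h5 id measurable_id) h3, h5⟩

end

/-- Under CH, for each `s` in `[0,1]` there is a subset of Cantor space of Hausdorff dimension `s`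
all of whose Borel images have Hausdorff dimension at most `s`. -/
theorem result (CH : Cardinal.continuum.{0} = Cardinal.aleph 1) (s : ℝ) (hs0 : 0 ≤ s)
    (hs1 : s ≤ 1) :
    ∃ E : Set (ℕ → Bool), dim E = ENNReal.ofReal s ∧
      ∀ f : (ℕ → Bool) → (ℕ → Bool),
        (∀ U, IsOpen U → MeasurableSet[borel (ℕ → Bool)] (f ⁻¹' U)) →
        dim (f '' E) ≤ ENNReal.ofReal s := by
  obtain ⟨E, h1, h2⟩ := main CH hs0 hs1
  refine ⟨E, h1, fun f hf => h2 f (measurable_of_isOpen (fun U hU => ?_))⟩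
  have := hf U hU
  rwa [← BorelSpace.measurable_eq (α := ℕ → Bool)] at this

end Pool.Agent.Results.MP_d9d12d_lc.BorelImages
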